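import Pool.Agent.Helper74.SbpEmbedding
import Pool.Agent.Helper74.HilbertBoundary
import Pool.Agent.Helper74.SnaDefs
import Pool.Agent.Helper74.Ell2

/-!
# Strongly norm attaining Lipschitz functions under the small ball property

We answer the question negatively: there is a (complete) pointed metric space `M` with the small
ball property such that `SNA(M)` contains a closed linear subspace isometric to `ℓ_2`; this
subspace is not isomorphic to any polyhedral Banach space.

Construction of `M`: let `d` be a dense sequence in `X = (ℓ_2)*`.  The points of `M` are the pairs
`(x, γ)` where `γ` is a closure operator on `ℕ` (coding the infinite set of its fixed points) and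
`x ∈ X` is `2^{-(l+1)}`-close to `{d 0, …, d l}` for every fixed point `l` of `γ`.  This is a closed
subset of `X × ℕ^ℕ` with the small ball property.  By Baire's theorem each `u ∈ X` is the difference
of the first coordinates of two points of `M`, so the evaluations `(x, γ) ↦ x y` strongly attain
their norm `‖y‖` for every `y ∈ ℓ_2`.

That `ℓ_2` is not isomorphic to a polyhedral space is proved from scratch: a separable polyhedral
space has a countable boundary and a renormed infinite dimensional Hilbert space has none.
-/

set_option autoImplicit false

open Filter Topology Set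

namespace Pool.Agent.Results.MP_8cd1d0_an.SbpNotPolyhedral

open Pool.Agent.Helper74

/-- There is a complete pointed metric space `M` with the small ball property and a closed linear
subspace `Y` of `Lip₀(M)`, contained in `SNA(M)` and isometric to `ℓ_2`, which is not isomorphic to
any polyhedral Banach space. -/
theorem result :
    ∃ (M : Type) (_ : MetricSpace M) (_ : CompleteSpace M) (_ : Nontrivial M) (o : M),
      HasSmallBallProperty M ∧ ContainsNonPolyhedralSubspace (SNA M o) := by
  have hsep : TopologicalSpace.SeparableSpace (StrongDual ℝ ell2) :=
    (InnerProductSpace.toDual ℝ ell2).surjective.denseRange.separableSpace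
      (InnerProductSpace.toDual ℝ ell2).continuous
  have hnt : Nontrivial ell2 := by
    by_contra h
    rw [not_nontrivial_iff_subsingleton] at h
    exact not_finiteDimensional_ell2 inferInstance
  obtain ⟨M, hM1, hM2, hM3, o, hsbp, Φ, hΦ⟩ := exists_sbp_embedding ell2
  refine ⟨M, hM1, hM2, hM3, o, hsbp, Φ.toLinearMap.range, ?_, ?_, ?_, ?_⟩
  · have h1 : IsClosed (range Φ) := Φ.isometry.isClosedEmbedding.isClosed_range
    have h2 : ((Φ.toLinearMap.range : Submodule ℝ (Lip0 M o)) : Set (Lip0 M o)) = range Φ := by
      ext f
      simp
    rw [h2]
    exact h1
  · rintro _ ⟨y, rfl⟩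
    exact hΦ y
  · exact ⟨Φ.equivRange⟩
  · rintro ⟨Z, hZ1, hZ2, hZ3, hZ, ⟨T⟩⟩
    exact not_polyhedral_of_equiv not_finiteDimensional_ell2 hZ
      (Φ.equivRange.toContinuousLinearEquiv.trans T)

end Pool.Agent.Results.MP_8cd1d0_an.SbpNotPolyhedral

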